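import Mathlib
import Pool.Agent.H8.Horse

namespace Pool.Agent.Results.MP_9297ae_an.Aperiodic

open Set Filter Topology Pool.Agent.H8

theorem result (B : ℝ) (hB : Real.exp (10 ^ 41) ≤ B) : ∃ x : ℕ → ℝ, (∀ n, 0 < x n) ∧
    (∀ n, x (n + 3) = x n / (B * x (n + 2) + x n)) ∧
    ¬ Tendsto x atTop (𝓝 (1 / (B + 1))) ∧
    ∀ (p : ℕ → ℝ) (k : ℕ), 1 ≤ k → (∀ n, p (n + k) = p n) →
      ¬ Tendsto (fun n => x n - p n) atTop (𝓝 0) := by
  have hB0 : 0 < B := (Real.exp_pos _).trans_le hB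
  have hL : 10 ^ 41 ≤ Real.log B := (Real.le_log_iff_exp_le hB0).2 hB
  set L := Real.log B with hLd
  have hL0 : 0 < L := lt_of_lt_of_le (by norm_num) hL
  have z : (0 : ℝ) ∈ Icc 0 (Real.exp (-200 * L)) := ⟨le_rfl, (Real.exp_pos _).le⟩
  obtain ⟨y, y1, y2, y3⟩ := Horse.main L 0 0 0 0 hL z z z z
  have hy : ∀ n, 0 < y n := fun n => (Real.exp_pos _).trans_le (y1 n).1
  have eB : Real.exp L = B := Real.exp_log hB0
  have key : ∀ (p : ℕ → ℝ) (k : ℕ), 1 ≤ k → (∀ n, p (n + k) = p n) →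
      ¬ Tendsto (fun n => (y n)⁻¹ - p n) atTop (𝓝 0) := by
    have hlt : Real.exp (L * (653 / 200)) < Real.exp (L * (3289 / 1000)) :=
      Real.exp_lt_exp.2 (by nlinarith)
    refine Itin.not_asym (fun n => (y n)⁻¹)
      ((Real.exp (L * (653 / 200)))⁻¹ - (Real.exp (L * (3289 / 1000)))⁻¹)
      (sub_pos.2 (inv_strictAnti₀ (Real.exp_pos _) hlt)) 73 fun k hk N => ?_
    obtain ⟨n, h1, h2, h3⟩ := y3 k hk N
    refine ⟨n, h1, le_abs.2 (Or.inr ?_)⟩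
    have a1 := inv_anti₀ (hy n) h2
    have a2 := inv_anti₀ (Real.exp_pos _) h3
    linarith
  refine ⟨fun n => (y n)⁻¹, fun n => inv_pos.2 (hy n), fun n => ?_, fun h => ?_, key⟩
  · have := hy n
    have := hy (n + 2)
    simp only [y2 n, eB, zero_mul, add_zero, zero_add]
    field_simp
    ring
  · exact key (fun _ => 1 / (B + 1)) 1 le_rfl (fun _ => rfl) (tendsto_sub_nhds_zero_iff.2 h)

end Pool.Agent.Results.MP_9297ae_an.Aperiodic
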